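import Mathlib
import Pool.Agent.MP_0fd9b9_co.Main

set_option autoImplicit false

namespace Pool.Agent.Results.MP_0fd9b9_co.NLogN

open Pool.Agent.MP_0fd9b9_co

/-- `Q(n) ≤ 2 n (⌈log₂ n⌉ + 2) + 2 ⌈log₂ n⌉` for all `n ≥ 2`. -/
theorem result (n : ℕ) (hn : 2 ≤ n) :
    Qsup n ≤ ((2 * n * (Nat.clog 2 n + 2) + 2 * Nat.clog 2 n : ℕ) : ℕ∞) := by
  unfold Qsup
  refine iSup_le fun σ => iSup_le fun k => iSup_le fun σs => iSup_le fun had => ?_
  unfold qstar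
  refine iInf₂_le_of_le (2 * (n * (Nat.clog 2 n + 2)) + 2 * Nat.clog 2 n) ⟨?_, ?_⟩ ?_
  · have : 0 < n * (Nat.clog 2 n + 2) := Nat.mul_pos (by omega) (by omega)
    omega
  · exact split_one_sum hn had _ (Nat.le_pow_clog (by norm_num) n)
  · rw [mul_assoc]

end Pool.Agent.Results.MP_0fd9b9_co.NLogN
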